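import Pool.Agent.Lib_helper85.VM.Defs

/-!
# MP_5582d1_ag: the group law of `y² = x³ + a x² + b` in coordinates
-/

set_option autoImplicit false

namespace Pool.Agent.VM

open scoped Classical

section
variable {R : Type*} [CommRing R] {a b : R} {F : Type*} [Field F] [Algebra R F]

theorem ptf_cases (p : Pt (SW a b) F) : p = 0 ∨
    ∃ (x y : F) (h : ((SW a b).baseChange F).toAffine.Nonsingular x y), p = .some x y h := by
  rcases p with _ | ⟨x, y, h⟩
  · exact Or.inl rfl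
  · exact Or.inr ⟨x, y, h, rfl⟩

theorem ptf_a₁ : ((SW a b).baseChange F).a₁ = 0 := by
  simp [SW, WeierstrassCurve.baseChange, WeierstrassCurve.map]
theorem ptf_a₂ : ((SW a b).baseChange F).a₂ = algebraMap R F a := by
  simp [SW, WeierstrassCurve.baseChange, WeierstrassCurve.map]
theorem ptf_a₃ : ((SW a b).baseChange F).a₃ = 0 := by
  simp [SW, WeierstrassCurve.baseChange, WeierstrassCurve.map]
theorem ptf_a₄ : ((SW a b).baseChange F).a₄ = 0 := by
  simp [SW, WeierstrassCurve.baseChange, WeierstrassCurve.map]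
theorem ptf_a₆ : ((SW a b).baseChange F).a₆ = algebraMap R F b := by
  simp [SW, WeierstrassCurve.baseChange, WeierstrassCurve.map]

theorem ptf_negY (x y : F) : ((SW a b).baseChange F).toAffine.negY x y = -y := by
  rw [WeierstrassCurve.Affine.negY, ptf_a₁, ptf_a₃]; ring

theorem ptf_addX (x x' s : F) :
    ((SW a b).baseChange F).toAffine.addX x x' s = s ^ 2 - algebraMap R F a - x - x' := by
  rw [WeierstrassCurve.Affine.addX, ptf_a₁, ptf_a₂]; ring

theorem ptf_equation {x y : F} (h : ((SW a b).baseChange F).toAffine.Equation x y) :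
    y ^ 2 = x ^ 3 + algebraMap R F a * x ^ 2 + algebraMap R F b := by
  rw [WeierstrassCurve.Affine.equation_iff, ptf_a₁, ptf_a₂, ptf_a₃, ptf_a₄, ptf_a₆] at h
  linear_combination h

@[simp] theorem ptf_xc_zero : xc (0 : Pt (SW a b) F) = 0 := rfl
@[simp] theorem ptf_yc_zero : yc (0 : Pt (SW a b) F) = 0 := rfl
@[simp] theorem ptf_xc_some {x y : F} (h : ((SW a b).baseChange F).toAffine.Nonsingular x y) :
    xc (.some x y h : Pt (SW a b) F) = x := rfl
@[simp] theorem ptf_yc_some {x y : F} (h : ((SW a b).baseChange F).toAffine.Nonsingular x y) :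
    yc (.some x y h : Pt (SW a b) F) = y := rfl

theorem ptf_sq {p : Pt (SW a b) F} (hp : p ≠ 0) :
    yc p ^ 2 = xc p ^ 3 + algebraMap R F a * xc p ^ 2 + algebraMap R F b := by
  rcases ptf_cases p with h | ⟨x, y, h, rfl⟩
  · exact absurd h hp
  · exact ptf_equation h.1

theorem ptf_xc_neg (p : Pt (SW a b) F) : xc (-p) = xc p := by
  rcases ptf_cases p with rfl | ⟨x, y, h, rfl⟩
  · rfl
  · rfl

theorem ptf_yc_neg (p : Pt (SW a b) F) : yc (-p) = -yc p := by
  rcases ptf_cases p with rfl | ⟨x, y, h, rfl⟩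
  · simp
  · rw [WeierstrassCurve.Affine.Point.neg_some]
    simp only [ptf_yc_some]
    exact ptf_negY x y

/-- the `x`-coordinates agree iff the points agree up to sign -/
theorem ptf_xc_eq_iff {p q : Pt (SW a b) F} (hp : p ≠ 0) (hq : q ≠ 0) :
    xc p = xc q ↔ p = q ∨ p = -q := by
  rcases ptf_cases p with h | ⟨x, y, h, rfl⟩
  · exact absurd h hp
  rcases ptf_cases q with h' | ⟨x', y', h', rfl⟩
  · exact absurd h' hq
  exact WeierstrassCurve.Affine.Point.X_eq_iff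

theorem ptf_xc_ne {p q : Pt (SW a b) F} (hp : p ≠ 0) (hq : q ≠ 0) (h1 : p ≠ q) (h2 : p ≠ -q) :
    xc p ≠ xc q := fun h => by
  rcases (ptf_xc_eq_iff hp hq).1 h with h | h
  · exact h1 h
  · exact h2 h

/-- addition, different `x`-coordinates -/
theorem ptf_add {p q : Pt (SW a b) F} (hp : p ≠ 0) (hq : q ≠ 0) (h : xc p ≠ xc q) :
    p + q ≠ 0 ∧
    xc (p + q) = ((yc p - yc q) / (xc p - xc q)) ^ 2 - algebraMap R F a - xc p - xc q ∧
    yc (p + q) = -((yc p - yc q) / (xc p - xc q) * (xc (p + q) - xc p) + yc p) := by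
  rcases ptf_cases p with h0 | ⟨x, y, h0, rfl⟩
  · exact absurd h0 hp
  rcases ptf_cases q with h' | ⟨x', y', h', rfl⟩
  · exact absurd h' hq
  have hx : x ≠ x' := h
  have hadd := WeierstrassCurve.Affine.Point.add_of_X_ne (h₁ := h0) (h₂ := h') hx
  refine ⟨?_, ?_, ?_⟩
  · rw [hadd]; exact WeierstrassCurve.Affine.Point.some_ne_zero _
  · rw [hadd]
    simp only [ptf_xc_some, ptf_yc_some]
    rw [ptf_addX, WeierstrassCurve.Affine.slope_of_X_ne hx]
  · rw [hadd]
    simp only [ptf_xc_some, ptf_yc_some]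
    rw [WeierstrassCurve.Affine.addY, ptf_negY, WeierstrassCurve.Affine.negAddY,
      WeierstrassCurve.Affine.slope_of_X_ne hx]

/-- subtraction, different `x`-coordinates -/
theorem ptf_sub {p q : Pt (SW a b) F} (hp : p ≠ 0) (hq : q ≠ 0) (h : xc p ≠ xc q) :
    p - q ≠ 0 ∧
    xc (p - q) = ((yc p + yc q) / (xc p - xc q)) ^ 2 - algebraMap R F a - xc p - xc q := by
  have h1 := ptf_add (p := p) (q := -q) hp (neg_ne_zero.2 hq) (by rw [ptf_xc_neg]; exact h)
  rw [← sub_eq_add_neg, ptf_xc_neg, ptf_yc_neg, sub_neg_eq_add] at h1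
  exact ⟨h1.1, h1.2.1⟩

/-- `p + p = 0` iff `2 y = 0` -/
theorem ptf_dbl_ne {p : Pt (SW a b) F} (hp : p ≠ 0) : p + p ≠ 0 ↔ 2 * yc p ≠ 0 := by
  rcases ptf_cases p with h0 | ⟨x, y, h0, rfl⟩
  · exact absurd h0 hp
  simp only [ptf_yc_some]
  constructor
  · intro h h2
    apply h
    apply WeierstrassCurve.Affine.Point.add_self_of_Y_eq
    rw [ptf_negY]; linear_combination h2
  · intro h h2
    rw [WeierstrassCurve.Affine.Point.add_self_of_Y_ne (by
      rw [ptf_negY]; intro h3; apply h; linear_combination h3)] at h2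
    exact WeierstrassCurve.Affine.Point.some_ne_zero _ h2

/-- duplication -/
theorem ptf_dbl {p : Pt (SW a b) F} (h : p + p ≠ 0) :
    p ≠ 0 ∧ (2 : F) ≠ 0 ∧ yc p ≠ 0 ∧
    xc (p + p) = ((3 * xc p ^ 2 + 2 * algebraMap R F a * xc p) / (2 * yc p)) ^ 2
      - algebraMap R F a - 2 * xc p := by
  have hp : p ≠ 0 := by rintro rfl; exact h (add_zero _)
  have h2 := (ptf_dbl_ne hp).1 h
  refine ⟨hp, left_ne_zero_of_mul h2, right_ne_zero_of_mul h2, ?_⟩
  rcases ptf_cases p with h0 | ⟨x, y, h0, rfl⟩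
  · exact absurd h0 hp
  have hy : y ≠ ((SW a b).baseChange F).toAffine.negY x y := by
    rw [ptf_negY]; intro h3; apply h2; simp only [ptf_yc_some]; linear_combination h3
  rw [WeierstrassCurve.Affine.Point.add_self_of_Y_ne hy]
  simp only [ptf_xc_some, ptf_yc_some]
  rw [ptf_addX, WeierstrassCurve.Affine.slope_of_Y_ne rfl hy, ptf_negY, ptf_a₁, ptf_a₂, ptf_a₄]
  ring_nf

/-- `X(P+Q) + X(P-Q)` -/
theorem ptf_sum {p q : Pt (SW a b) F} (hp : p ≠ 0) (hq : q ≠ 0) (h : xc p ≠ xc q) :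
    xc (p + q) + xc (p - q) =
      (2 * xc p * xc q * (xc p + xc q) + 4 * algebraMap R F a * xc p * xc q
        + 4 * algebraMap R F b) / (xc p - xc q) ^ 2 := by
  rw [(ptf_add hp hq h).2.1, (ptf_sub hp hq h).2]
  have h0 : xc p - xc q ≠ 0 := sub_ne_zero.2 h
  have e1 := ptf_sq hp
  have e2 := ptf_sq hq
  field_simp
  linear_combination 2 * e1 + 2 * e2

/-- `X(P+Q) X(P-Q)` -/
theorem ptf_prod {p q : Pt (SW a b) F} (hp : p ≠ 0) (hq : q ≠ 0) (h : xc p ≠ xc q) :
    xc (p + q) * xc (p - q) =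
      (xc p ^ 2 * xc q ^ 2 - 4 * algebraMap R F b * (xc p + xc q + algebraMap R F a))
        / (xc p - xc q) ^ 2 := by
  rw [(ptf_add hp hq h).2.1, (ptf_sub hp hq h).2]
  have h0 : xc p - xc q ≠ 0 := sub_ne_zero.2 h
  have e1 := ptf_sq hp
  have e2 := ptf_sq hq
  rw [eq_div_iff (pow_ne_zero 2 h0)]
  have e3 : ((yc p - yc q) / (xc p - xc q)) ^ 2 * (xc p - xc q) ^ 2 = (yc p - yc q) ^ 2 := by
    field_simp
  have e4 : ((yc p + yc q) / (xc p - xc q)) ^ 2 * (xc p - xc q) ^ 2 = (yc p + yc q) ^ 2 := by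
    field_simp
  have key : (((yc p - yc q) / (xc p - xc q)) ^ 2 - algebraMap R F a - xc p - xc q) *
      (((yc p + yc q) / (xc p - xc q)) ^ 2 - algebraMap R F a - xc p - xc q) *
      (xc p - xc q) ^ 2 * (xc p - xc q) ^ 2 =
      (xc p ^ 2 * xc q ^ 2 - 4 * algebraMap R F b * (xc p + xc q + algebraMap R F a))
        * (xc p - xc q) ^ 2 := by
    have : (((yc p - yc q) / (xc p - xc q)) ^ 2 - algebraMap R F a - xc p - xc q) *
      (((yc p + yc q) / (xc p - xc q)) ^ 2 - algebraMap R F a - xc p - xc q) *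
      (xc p - xc q) ^ 2 * (xc p - xc q) ^ 2 =
      ((yc p - yc q) ^ 2 - (algebraMap R F a + xc p + xc q) * (xc p - xc q) ^ 2) *
      ((yc p + yc q) ^ 2 - (algebraMap R F a + xc p + xc q) * (xc p - xc q) ^ 2) := by
      rw [← e3, ← e4]; ring
    rw [this]
    have e5 : ((yc p - yc q) ^ 2 - (algebraMap R F a + xc p + xc q) * (xc p - xc q) ^ 2) *
      ((yc p + yc q) ^ 2 - (algebraMap R F a + xc p + xc q) * (xc p - xc q) ^ 2) =
      (yc p ^ 2 - yc q ^ 2) ^ 2 -
        2 * (algebraMap R F a + xc p + xc q) * (xc p - xc q) ^ 2 * (yc p ^ 2 + yc q ^ 2) +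
        (algebraMap R F a + xc p + xc q) ^ 2 * (xc p - xc q) ^ 4 := by ring
    rw [e5, e1, e2]; ring
  exact mul_right_cancel₀ (pow_ne_zero 2 h0) key

/-- `X(2P)` -/
theorem ptf_xc_dbl {p : Pt (SW a b) F} (h : p + p ≠ 0) :
    xc (p + p) = (xc p ^ 4 - 8 * algebraMap R F b * xc p - 4 * algebraMap R F a * algebraMap R F b)
      / (4 * (xc p ^ 3 + algebraMap R F a * xc p ^ 2 + algebraMap R F b)) := by
  obtain ⟨hp, h2, hy, hx⟩ := ptf_dbl h
  have e := ptf_sq hp
  have h4 : (4 : F) ≠ 0 := by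
    have : (4 : F) = 2 * 2 := by norm_num
    rw [this]; exact mul_ne_zero h2 h2
  rw [hx, ← e]
  have hy2 : yc p ^ 2 ≠ 0 := pow_ne_zero 2 hy
  rw [div_pow, mul_pow, eq_div_iff (mul_ne_zero h4 hy2)]
  have h4' : (2 : F) ^ 2 = 4 := by norm_num
  have e6 : (3 * xc p ^ 2 + 2 * algebraMap R F a * xc p) ^ 2 / (2 ^ 2 * yc p ^ 2) * (4 * yc p ^ 2)
      = (3 * xc p ^ 2 + 2 * algebraMap R F a * xc p) ^ 2 := by
    rw [h4']; field_simp
  have e7 : ((3 * xc p ^ 2 + 2 * algebraMap R F a * xc p) ^ 2 / (2 ^ 2 * yc p ^ 2)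
      - algebraMap R F a - 2 * xc p) * (4 * yc p ^ 2) =
      (3 * xc p ^ 2 + 2 * algebraMap R F a * xc p) ^ 2
      - 4 * (algebraMap R F a + 2 * xc p) * yc p ^ 2 := by
    linear_combination e6
  rw [e7, e]; ring

end

end Pool.Agent.VM
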